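import Pool.Agent.Q229.PS.Final
import Pool.Agent.Q149.PS.W4
import Pool.Agent.Q149.PS.N1
import Pool.Agent.Q296.PS.N2bStm
import Pool.Agent.Q296.PS.N3Stm
import Pool.Agent.Q296.PS.N5Stm
import Pool.Agent.Q66.PS.N4
import Pool.Agent.Q66.PS.Y5
import Pool.Agent.Q190.PS.Y1
import Pool.Agent.Q190.PS.Y2
import Pool.Agent.Q190.PS.Y3
import Pool.Agent.Q190.PS.Y4
import Pool.Agent.Q190.PS.M1
import Pool.Agent.Q296.PS.Y6Stm
import Pool.Agent.Q296.PS.Y8Stm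
import Pool.Agent.Q296.PS.Y9Stm
import Pool.Agent.Q296.PS.F1Stm
import Pool.Agent.Q296.PS.F2Stm
import Pool.Agent.Q31.PS.M2Stm
import Pool.Agent.Q92.PST.Y0Stm
import Pool.Agent.Q92.PST.Y7Stm
import Pool.Agent.Q92.PST.F4Stm
import Pool.Agent.Q149.PS.F3

set_option autoImplicit false

/-!
# The path-stabbing number: all parts together
-/

namespace Pool.Agent.Q229.PS

open Pool.Agent.NPC

/-- everything together -/
theorem all :
    (InNPP PathStab ∧ NPHardP PathStab) ∧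
    ((∃ F : List Bool → List Bool, PolyTime F ∧
        ∀ (S : List (ℚ × ℚ)) (k : ℤ), S.Nodup → 2 ≤ S.length →
          (F (bits (S, k)) = [true] ↔ PathStabLe S k)) ↔
      ∀ L : Set (List Bool), InNP L → InP L) :=
  final (hardPr Q149.PS.t_W1 Q149.PS.t_W2 Q149.PS.t_W3 Q149.PS.t_W4 Q149.PS.t_N1 n2a_296
    n2b_296 n3_296 Q66.PS.t_N4 n5_296 Q92.PST.y0 Q190.PS.t_Y1 Q190.PS.t_Y2 Q190.PS.t_Y3 Q190.PS.t_Y4
    Q66.PS.t_Y5 y6_296 Q92.PST.y7 y8_296 y9_296 f1_296 f2_296 Q149.PS.t_F3 Q92.PST.f4)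
    (Q31.PS.m2 Q190.PS.t_M1)

end Pool.Agent.Q229.PS
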