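import Pool.Agent.Q229.PS.Defs

set_option autoImplicit false

/-!
# The path-stabbing number: basic lemmas on `adjC`
-/

namespace Pool.Agent.Q229.PS

section AdjC

variable {α β : Type} {P Q : α → α → Prop}

@[simp] theorem adjC_nil : adjC P [] = 0 := rfl

@[simp] theorem adjC_singleton (a : α) : adjC P [a] = 0 := rfl

open Classical in
theorem adjC_cons_cons (a b : α) (l : List α) :
    adjC P (a :: b :: l) = (if P a b then 1 else 0) + adjC P (b :: l) := by
  simp only [adjC]

/-- splitting at an element -/
theorem adjC_append (l : List α) (a : α) (l' : List α) :
    adjC P (l ++ a :: l') = adjC P (l ++ [a]) + adjC P (a :: l') := by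
  induction l with
  | nil => simp
  | cons b l ih =>
    cases l with
    | nil =>
      simp only [List.cons_append, List.nil_append, adjC_cons_cons, adjC_singleton]
      omega
    | cons c l =>
      simp only [List.cons_append, adjC_cons_cons] at ih ⊢
      omega

theorem adjC_mono (h : ∀ a b, P a b → Q a b) (l : List α) : adjC P l ≤ adjC Q l := by
  classical
  induction l with
  | nil => simp
  | cons b l ih =>
    cases l with
    | nil => simp
    | cons c l =>
      simp only [adjC_cons_cons] at ih ⊢
      by_cases h1 : P b c
      · simp only [h1, h b c h1, if_true]; omega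
      · simp only [h1, if_false]; split_ifs <;> omega

theorem adjC_congr (l : List α) (h : ∀ a ∈ l, ∀ b ∈ l, (P a b ↔ Q a b)) :
    adjC P l = adjC Q l := by
  classical
  induction l with
  | nil => simp
  | cons b l ih =>
    cases l with
    | nil => simp
    | cons c l =>
      simp only [adjC_cons_cons]
      rw [ih (fun a ha b hb => h a (List.mem_cons_of_mem _ ha) b (List.mem_cons_of_mem _ hb))]
      have := h b (by simp) c (by simp)
      by_cases h1 : P b c
      · simp [h1, this.1 h1]
      · have h2 : ¬ Q b c := fun h2 => h1 (this.2 h2)
        simp [h1, h2]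

/-- the same for lists all of whose pairs fail -/
theorem adjC_eq_zero (l : List α) (h : ∀ a ∈ l, ∀ b ∈ l, ¬ P a b) : adjC P l = 0 := by
  rw [adjC_congr (Q := fun _ _ => False) l (fun a ha b hb => by simp [h a ha b hb])]
  classical
  induction l with
  | nil => simp
  | cons b l ih =>
    cases l with
    | nil => simp
    | cons c l =>
      simp only [adjC_cons_cons, if_false, zero_add]
      exact ih (fun a ha b hb => h a (List.mem_cons_of_mem _ ha) b (List.mem_cons_of_mem _ hb))

theorem adjC_le (l : List α) : adjC P l ≤ l.length - 1 := by
  classical
  induction l with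
  | nil => simp
  | cons b l ih =>
    cases l with
    | nil => simp
    | cons c l =>
      simp only [adjC_cons_cons, List.length_cons] at ih ⊢
      split_ifs <;> omega

theorem adjC_add_le (l l' : List α) : adjC P l + adjC P l' ≤ adjC P (l ++ l') := by
  classical
  rcases List.eq_nil_or_concat l with rfl | ⟨l1, a, rfl⟩
  · simp
  · cases l' with
    | nil => simp
    | cons b l' =>
      have h := adjC_append (P := P) l1 a (b :: l')
      have h2 := adjC_cons_cons (P := P) a b l'
      rw [List.concat_eq_append, List.append_assoc, List.cons_append, List.nil_append]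
      omega

theorem adjC_append_le (l l' : List α) : adjC P (l ++ l') ≤ adjC P l + 1 + adjC P l' := by
  classical
  rcases List.eq_nil_or_concat l with rfl | ⟨l1, a, rfl⟩
  · simp
  · cases l' with
    | nil => simp
    | cons b l' =>
      have h := adjC_append (P := P) l1 a (b :: l')
      have h2 := adjC_cons_cons (P := P) a b l'
      rw [List.concat_eq_append, List.append_assoc, List.cons_append, List.nil_append]
      split_ifs at h2 <;> omega

theorem adjC_reverse (hs : ∀ a b, P a b ↔ P b a) (l : List α) : adjC P l.reverse = adjC P l := by
  classical
  induction l with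
  | nil => simp
  | cons b l ih =>
    cases l with
    | nil => simp
    | cons c l =>
      rw [adjC_cons_cons, ← ih]
      simp only [List.reverse_cons, List.append_assoc, List.cons_append, List.nil_append]
      rw [adjC_append]
      simp only [adjC_cons_cons, adjC_singleton]
      by_cases h1 : P b c
      · simp only [h1, (hs b c).1 h1, if_true]; omega
      · have h2 : ¬ P c b := fun h2 => h1 ((hs b c).2 h2)
        simp only [h1, h2, if_false]; omega

theorem adjC_map (f : β → α) (l : List β) :
    adjC P (l.map f) = adjC (fun a b => P (f a) (f b)) l := by
  classical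
  induction l with
  | nil => simp
  | cons b l ih =>
    cases l with
    | nil => simp
    | cons c l =>
      simp only [List.map_cons, adjC_cons_cons] at ih ⊢
      omega

/-- inserting an element into a list does not decrease the number of pairs, if the relation is
`crossing a cut` -/
theorem adjC_or_le (l : List α) :
    adjC (fun a b => P a b ∨ Q a b) l ≤ adjC P l + adjC Q l := by
  classical
  induction l with
  | nil => simp
  | cons b l ih =>
    cases l with
    | nil => simp
    | cons c l =>
      simp only [adjC_cons_cons] at ih ⊢
      by_cases h1 : P b c <;> by_cases h2 : Q b c <;> simp only [h1, h2, or_true, true_or, or_self,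
        if_true, if_false] <;> omega

end AdjC

theorem cr_comm (g a b : ℕ) : cr g a b ↔ cr g b a := or_comm

theorem sc_neg (α β γ : ℝ) (P : List Pt) : sc (lin (-α) (-β) (-γ)) P = sc (lin α β γ) P := by
  unfold sc
  apply adjC_congr
  intro a _ b _
  have h1 : ∀ q : Pt, lin (-α) (-β) (-γ) q = - lin α β γ q := by intro q; unfold lin; ring
  rw [h1, h1]
  simp

theorem sc_neg' (f : Pt → ℝ) (P : List Pt) : sc (fun q => - f q) P = sc f P := by
  unfold sc
  apply adjC_congr
  intro a _ b _
  simp

/-- no sign change in a list of points with positive values -/
theorem sc_pos (f : Pt → ℝ) (P : List Pt) (h : ∀ a ∈ P, 0 < f a) : sc f P = 0 :=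
  adjC_eq_zero _ (fun a ha b hb h1 => absurd (mul_pos (h a ha) (h b hb)) (by linarith))

/-- no sign change in a list of points with negative values -/
theorem sc_neg_list (f : Pt → ℝ) (P : List Pt) (h : ∀ a ∈ P, f a < 0) : sc f P = 0 :=
  adjC_eq_zero _ (fun a ha b hb h1 => absurd (mul_pos_of_neg_of_neg (h a ha) (h b hb))
    (by linarith))

theorem length_zg (a b : ℕ → Pt) (n : ℕ) : (zg a b n).length = 2 * n := by
  unfold zg
  rw [List.length_flatMap]
  have : ∀ n, (List.map (fun i => (if i % 2 = 0 then [a i, b i] else [b i, a i]).length)
      (List.range n)).sum = 2 * n := by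
    intro n
    induction n with
    | zero => simp
    | succ n ih =>
      rw [List.range_succ, List.map_append, List.sum_append, ih]
      simp only [List.map_cons, List.map_nil, List.sum_cons, List.sum_nil]
      split_ifs <;> simp <;> omega
  exact this n

theorem zg_succ (a b : ℕ → Pt) (n : ℕ) :
    zg a b (n + 1) = zg a b n ++ (if n % 2 = 0 then [a n, b n] else [b n, a n]) := by
  unfold zg
  rw [List.range_succ, List.flatMap_append]
  simp

end Pool.Agent.Q229.PS
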