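import Pool.Agent.NPC.Sat

set_option autoImplicit false

/-!
# The path-stabbing number: definitions

## Overview of the reduction

*The walker problem.*  A row is a pair `(l, r)`, `l ≤ r`, of positions on a line.  A walker visits the
rows one after the other, in each row both positions in one of the two orders (`IsWalk`).  Gap `g`
lies between the positions `g` and `g + 1`; `cross g w` counts the steps of the walk `w` over it.
Given capacities of the gaps, may the walker respect them?  3SAT reduces to this question: for every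
variable there is a block of rows `(0, r)` between the rows `(0, 0)` and `(1, 1)`; gap `0` forces the
walker to zigzag, and the phase of the zigzag is the value of the variable.

*The points.*  Row `k` of the walker becomes the points `(p L, (k + 1) L)`.  Above them (heights
more than `Y`) there are full rows of lattice points, and to the right of them (`x > X`) full
columns of lattice points.  Between two neighbouring positions these rows saturate, up to `cap j`,
some vertical line, and between two neighbouring heights these columns saturate, up to `1`, some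
horizontal line.
-/

namespace Pool.Agent.Q229.PS

open Pool.Agent.NPC

/-- lattice points -/
abbrev Pt : Type := ℕ × ℕ

/-- rows of the walker problem -/
abbrev Row : Type := ℕ × ℕ

/-- formulas with three literals per clause -/
abbrev F3 : Type := List (Lit ℕ × Lit ℕ × Lit ℕ)

/-! ## Counting adjacent pairs -/

open Classical in
/-- The number of adjacent pairs of a list with a property. -/
noncomputable def adjC {α : Type} (P : α → α → Prop) : List α → ℕ
  | [] => 0
  | [_] => 0
  | a :: b :: l => (if P a b then 1 else 0) + adjC P (b :: l)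

/-- a step from `a` to `b` passes over gap `g` (between `g` and `g + 1`) -/
def cr (g a b : ℕ) : Prop := (a ≤ g ∧ g < b) ∨ (b ≤ g ∧ g < a)

/-- number of steps of a walk over gap `g` -/
noncomputable def cross (g : ℕ) (w : List ℕ) : ℕ := adjC (cr g) w

/-- affine functions -/
def lin (α β γ : ℝ) (p : Pt) : ℝ := α * p.1 + β * p.2 - γ

/-- number of edges of a path stabbed by the line `f = 0` -/
noncomputable def sc (f : Pt → ℝ) (P : List Pt) : ℕ := adjC (fun p q => f p * f q < 0) P

/-! ## The walker problem -/

/-- the points of a row in one of the two orders -/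
def rowL (b : Bool) (ρ : Row) : List ℕ :=
  if ρ.1 = ρ.2 then [ρ.1] else if b then [ρ.1, ρ.2] else [ρ.2, ρ.1]

/-- `us` lists, for every row, its points in one of the two orders -/
def IsWalk (rows : List Row) (us : List (List ℕ)) : Prop :=
  List.Forall₂ (fun ρ u => ∃ b, u = rowL b ρ) rows us

/-! ## The rows for a formula -/

/-- the occurrences of literals, with the number of the clause -/
def occ (φ : F3) : List (ℕ × Lit ℕ) :=
  φ.zipIdx.flatMap (fun p => [(p.2, p.1.1), (p.2, p.1.2.1), (p.2, p.1.2.2)])

/-- right end for the first part of the block of `v` -/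
def rT (v : ℕ) (o : ℕ × Lit ℕ) : ℕ := o.1 + 1 + (if o.2.2 = v ∧ o.2.1 = false then 1 else 0)

/-- right end for the second part of the block of `v` -/
def rF (v : ℕ) (o : ℕ × Lit ℕ) : ℕ := o.1 + 1 + (if o.2.2 = v ∧ o.2.1 = true then 1 else 0)

/-- right ends of the rows of the first part -/
def part1 (φ : F3) (v : ℕ) : List ℕ := (occ φ).flatMap (fun o => [1, rT v o, rT v o, 1])

/-- right ends of the rows of the second part -/
def part2 (φ : F3) (v : ℕ) : List ℕ := (occ φ).flatMap (fun o => [1, 1, rF v o, rF v o]) ++ [1, 1]

/-- a block of rows with right ends `rs` -/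
def blkR (rs : List ℕ) : List Row := (0, 0) :: (rs.map (fun r => (0, r)) ++ [(1, 1)])

/-- the block of a variable -/
def blk (φ : F3) (v : ℕ) : List Row := blkR (part1 φ v ++ part2 φ v)

/-- all rows -/
def rows (φ : F3) : List Row := (List.range (3 * φ.length)).flatMap (blk φ) ++ [(0, 0)]

/-- the capacities of the gaps -/
def cap (φ : F3) (j : ℕ) : ℕ :=
  if j = 0 then 3 * φ.length * (24 * φ.length + 4)
  else if j ≤ φ.length then 54 * φ.length * (φ.length - j) + 10 else 0

/-- the variables are smaller than `3 m` -/
def Small (φ : F3) : Prop :=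
  ∀ c ∈ φ, c.1.2 < 3 * φ.length ∧ c.2.1.2 < 3 * φ.length ∧ c.2.2.2 < 3 * φ.length

/-- zigzag walks; `zig true` starts on the left -/
def zig : Bool → List ℕ → List (List ℕ)
  | _, [] => []
  | b, r :: rs => (if b then [0, r] else [r, 0]) :: zig (!b) rs

/-! ## The points -/

/-- Parameters of the construction: `m + 2` positions `0, …, m + 1`, `R` rows, `cap j` the capacity
of gap `j`; `T` full rows and `T - 1` full columns, `D - cap j` short rows over gap `j` and `D` short
columns beside every gap between heights. -/
structure Par where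
  /-- number of the last clause gap -/
  m : ℕ
  /-- number of rows of the walker -/
  R : ℕ
  /-- number of short columns -/
  D : ℕ
  /-- number of full rows -/
  T : ℕ
  /-- distance of neighbouring positions -/
  L : ℕ
  /-- the short columns are at `X + 1, …, X + D` -/
  X : ℕ
  /-- the short rows are at heights `Y + 1, …` -/
  Y : ℕ
  /-- the full columns are at multiples of `XX` -/
  XX : ℕ
  /-- the full rows are at multiples of `YY` -/
  YY : ℕ
  /-- the capacities -/
  cap : ℕ → ℕ

namespace Par

variable (p : Par)

/-- the bound for the stabbing number -/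
def K : ℕ := p.T + p.D

/-- the width of the full rows -/
def W : ℕ := (p.m + 2) * p.L

/-- the height of the full columns -/
def H : ℕ := (p.R + 1) * p.L

/-- the number of short rows over gap `j` -/
def s (j : ℕ) : ℕ := p.D - p.cap j

/-- The requirements for the parameters. -/
structure Ok : Prop where
  hR : 1 ≤ p.R
  hD : p.D % 2 = 1
  hDR : 2 * p.R + 20 ≤ p.D
  hcap : ∀ j, p.cap j % 2 = 0 ∧ p.cap j < p.D
  hcapm : p.cap (p.m + 1) = 0
  hT : p.T % 2 = 0
  hTb : 2 * p.R + 2 * p.D * (p.m + 2) + 2 * p.D * p.R + 20 ≤ p.T
  hL : 2 * p.K * p.K + 4 ≤ p.L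
  hX : (p.T + 1) * p.W ≤ p.X
  hY : (p.T + 1) * p.H ≤ p.Y
  hXX : 4 * p.H * (p.X + p.D + 2) < p.XX
  hYY : 4 * p.W * (p.Y + p.D + 2) < p.YY

end Par

/-- `n` lattice points on a horizontal line -/
def hrun (x0 n y : ℕ) : List Pt := (List.range n).map (fun i => (x0 + i, y))

/-- `n` lattice points on a vertical line -/
def vrun (x y0 n : ℕ) : List Pt := (List.range n).map (fun i => (x, y0 + i))

/-- runs `r 0`, `r 1`, …, every second one backwards -/
def zr (r : ℕ → List Pt) (n : ℕ) : List Pt :=
  (List.range n).flatMap (fun i => if i % 2 = 0 then r i else (r i).reverse)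

/-- the ends of the runs of `zr` -/
def zg (a b : ℕ → Pt) (n : ℕ) : List Pt :=
  (List.range n).flatMap (fun i => if i % 2 = 0 then [a i, b i] else [b i, a i])

namespace Par

variable (p : Par)

/-- the short rows over gap `j` -/
def zoneS (j : ℕ) : List Pt := zr (fun i => hrun (j * p.L + 1) (p.L - 1) (p.Y + 1 + i)) (p.s j)

/-- the full rows -/
def rowsV : List Pt := zr (fun i => (hrun 0 (p.W + 1) ((i + 1) * p.YY)).reverse) p.T

/-- the short columns between the heights `k L` and `(k + 1) L` -/
def zoneT (k : ℕ) : List Pt :=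
  zr (fun i => (vrun (p.X + 1 + i) (k * p.L + 1) (p.L - 1)).reverse) p.D

/-- the full columns -/
def colsH : List Pt := zr (fun i => vrun ((i + 1) * p.XX) 0 (p.H + 1)) (p.T - 1)

/-- the path through all points which do not belong to the walker -/
def rest : List Pt :=
  (List.range (p.m + 2)).flatMap p.zoneS ++ ((p.W, p.Y + p.D + 1) :: (p.rowsV ++
    ((List.range p.R).flatMap (fun k => p.zoneT (p.R - k)) ++ ((p.X + p.D + 1, 0) :: p.colsH))))

/-- the points of a walk -/
def mainP (us : List (List ℕ)) : List Pt :=
  us.zipIdx.flatMap (fun q => q.1.map (fun x => (x * p.L, (q.2 + 1) * p.L)))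

/-- all points -/
def pts (rows : List Row) : List Pt := p.mainP (rows.map (rowL true)) ++ p.rest

/-- the corners of `zoneS` -/
def cS (j : ℕ) : List Pt :=
  zg (fun i => (j * p.L + 1, p.Y + 1 + i)) (fun i => (j * p.L + p.L - 1, p.Y + 1 + i)) (p.s j)

/-- the corners of `rowsV` -/
def cV : List Pt := zg (fun i => (p.W, (i + 1) * p.YY)) (fun i => (0, (i + 1) * p.YY)) p.T

/-- the corners of `zoneT` -/
def cT (k : ℕ) : List Pt :=
  zg (fun i => (p.X + 1 + i, k * p.L + p.L - 1)) (fun i => (p.X + 1 + i, k * p.L + 1)) p.D

/-- the corners of `colsH` -/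
def cH : List Pt := zg (fun i => ((i + 1) * p.XX, 0)) (fun i => ((i + 1) * p.XX, p.H)) (p.T - 1)

/-- the corners of `rest`, first part -/
def cR1 : List Pt := (List.range (p.m + 2)).flatMap p.cS ++ [(p.W, p.Y + p.D + 1)]

/-- the corners of `rest`, last part -/
def cR2 : List Pt :=
  (List.range p.R).flatMap (fun k => p.cT (p.R - k)) ++ ((p.X + p.D + 1, 0) :: p.cH)

/-- the corners of `rest` -/
def cRest : List Pt := p.cR1 ++ (p.cV ++ p.cR2)

/-- a list of rows fits to the parameters -/
def Fits (rows : List Row) : Prop :=
  rows.length = p.R ∧ (∀ ρ ∈ rows, ρ.1 ≤ ρ.2 ∧ ρ.2 ≤ p.m + 1)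

end Par

/-- the parameters for a formula -/
def parOf (φ : F3) : Par :=
  let m := φ.length
  let R := (rows φ).length
  let D := 4 * R + 41
  let T := 4 * R + 4 * D * (m + 2) + 4 * D * R + 40
  let K := T + D
  let L := 2 * K * K + 4
  let W := (m + 2) * L
  let H := (R + 1) * L
  let X := (T + 1) * W
  let Y := (T + 1) * H
  { m := m, R := R, D := D, T := T, L := L, X := X, Y := Y,
    XX := 4 * H * (X + D + 2) + 1, YY := 4 * W * (Y + D + 2) + 1, cap := cap φ }

/-- the points for a formula -/
def ptsOf (φ : F3) : List Pt := (parOf φ).pts (rows φ)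

/-- the instance of PATH-STAB for a formula (in the variables `0, 1, …`) -/
def inst (φ : F3) : List (ℚ × ℚ) × ℤ :=
  ((ptsOf φ).map (fun q => ((q.1 : ℚ), (q.2 : ℚ))), ((parOf φ).K : ℤ))

/-! ## The problem -/

/-- the line `α x + β y = γ` stabs the segment from `a` to `b` -/
def Stabs (α β γ : ℝ) (a b : ℚ × ℚ) : Prop :=
  (α * (a.1 : ℝ) + β * (a.2 : ℝ) - γ) * (α * (b.1 : ℝ) + β * (b.2 : ℝ) - γ) < 0

/-- there is a spanning path of `S` such that every line stabs at most `k` of its edges -/
def PathStabLe (S : List (ℚ × ℚ)) (k : ℤ) : Prop :=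
  ∃ P : List (ℚ × ℚ), P.Perm S ∧
    ∀ α β γ : ℝ, (α ≠ 0 ∨ β ≠ 0) → (adjC (Stabs α β γ) P : ℤ) ≤ k

/-- PATH-STAB -/
def PathStab (I : List (ℚ × ℚ) × ℤ) : Prop :=
  I.1.Nodup ∧ 2 ≤ I.1.length ∧ PathStabLe I.1 I.2

end Pool.Agent.Q229.PS
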