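import Pool.Agent.Q229.PS.Stm
import Pool.Agent.H642R2.TMSim
import Pool.Agent.NPC.Classes

set_option autoImplicit false

/-!
# The path-stabbing number: assembly of the parts
-/

namespace Pool.Agent.Q229.PS

open Pool.Agent.NPC

theorem index_lt {l : List ℕ} {v : ℕ} (h : v ∈ l) : index l v < l.length := by
  have h1 := getElem?_index h
  by_contra h2
  rw [List.getElem?_eq_none (by omega)] at h1
  simp at h1

theorem length_vars3 (φ : F3) : (vars3 φ).length = 3 * φ.length := by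
  unfold vars3
  induction φ with
  | nil => rfl
  | cons c φ ih =>
    simp only [List.flatMap_cons, List.length_append, ih, List.length_cons, List.length_nil]
    omega

theorem small_ren3 (φ : F3) : Small (ren3 φ) := by
  intro c hc
  have hl : (ren3 φ).length = φ.length := by unfold ren3; simp
  rw [hl, ← length_vars3 φ]
  unfold ren3 at hc
  rw [List.mem_map] at hc
  obtain ⟨d, hd, rfl⟩ := hc
  obtain ⟨h1, h2, h3⟩ := mem_vars3 hd
  exact ⟨index_lt h1, index_lt h2, index_lt h3⟩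

/-- well-formed inputs -/
def Inp (I : List (ℚ × ℚ) × ℤ) : Prop := I.1.Nodup ∧ 2 ≤ I.1.length

theorem inp_inst (f1 : F1Stm) (f2 : F2Stm) (φ : F3) : Inp (inst φ) := by
  obtain ⟨hok, hfit, -⟩ := f2 φ
  have hnd := f1 _ _ hok hfit
  constructor
  · show ((ptsOf φ).map _).Nodup
    apply hnd.map
    intro a b hab
    simp only [Prod.mk.injEq, Nat.cast_inj] at hab
    exact Prod.ext hab.1 hab.2
  · show 2 ≤ ((ptsOf φ).map _).length
    rw [List.length_map]
    show 2 ≤ ((parOf φ).pts (rows φ)).length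
    unfold Par.pts Par.rest
    simp only [List.length_append, List.length_cons]
    omega

theorem hardPr (hw1 : W1Stm) (hw2 : W2Stm) (hw3 : W3Stm) (hw4 : W4Stm) (h1 : N1Stm) (h2a : N2aStm)
    (h2b : N2bStm) (h3 : N3Stm) (h4 : N4Stm) (h5 : N5Stm) (y0 : Y0Stm) (y1 : Y1Stm) (y2 : Y2Stm)
    (y3 : Y3Stm) (y4 : Y4Stm) (y5 : Y5Stm) (y6 : Y6Stm) (y7 : Y7Stm) (y8 : Y8Stm) (y9 : Y9Stm)
    (f1 : F1Stm) (f2 : F2Stm) (f3 : F3Stm) (f4 : F4Stm) :
    HardPr Inp (fun I => PathStabLe I.1 I.2) := by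
  have key := f4 (hw4 hw1 hw2 hw3) (h5 h1 h2a h2b h3 h4) (y9 y0 y1 y2 y3 y4 y5 y6 y7 y8) f1 f2
  refine hardI_SAT3.toHardPr.trans (f := fun φ => inst (ren3 φ)) (f3.comp ren3_poly)
    (fun φ _ => inp_inst f1 f2 _) (fun φ _ => ?_)
  have hi := inp_inst f1 f2 (ren3 φ)
  constructor
  · intro h
    exact ((key (ren3 φ) (small_ren3 φ)).1 ((ren3_sat φ).1 h)).2.2
  · intro h
    exact (ren3_sat φ).2 ((key (ren3 φ) (small_ren3 φ)).2 ⟨hi.1, hi.2, h⟩)

/-- the final assembly -/
theorem final (hH : HardPr Inp (fun I : List (ℚ × ℚ) × ℤ => PathStabLe I.1 I.2))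
    (hM : InNPP PathStab) :
    (InNPP PathStab ∧ NPHardP PathStab) ∧
    ((∃ F : List Bool → List Bool, PolyTime F ∧
        ∀ (S : List (ℚ × ℚ)) (k : ℤ), S.Nodup → 2 ≤ S.length →
          (F (bits (S, k)) = [true] ↔ PathStabLe S k)) ↔
      ∀ L : Set (List Bool), InNP L → InP L) := by
  refine ⟨⟨hM, ?_⟩, ?_, ?_⟩
  · have h : HardPr (fun _ => True) PathStab := by
      intro L hL
      obtain ⟨f, hf, hpr, hL⟩ := hH L hL
      refine ⟨f, hf, fun _ => trivial, fun x => ?_⟩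
      rw [hL x]
      exact ⟨fun h => ⟨(hpr x).1, (hpr x).2, h⟩, fun h => h.2.2⟩
    exact h.toHardI.toNPHardP
  · rintro ⟨F, hF, hdec⟩
    intro L hL
    obtain ⟨f, hf, hpr, hL⟩ := hH L hL
    refine ⟨fun x => F (bits (f x)), ?_, fun x => ?_⟩
    · have h1 : PC (fun x : List Bool => x) (fun x : List Bool => x) (fun x => bits (f x)) := hf
      exact PC.toPolyTime (PC.comp (g := F) (f := fun x => bits (f x))
        (Pool.Agent.H642R2.TMSim.polyTime_toPC hF) h1)
    · rw [hL x]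
      exact (hdec (f x).1 (f x).2 (hpr x).1 (hpr x).2).symm
  · intro h
    obtain ⟨F, hF, hdec⟩ := h _ hM
    refine ⟨F, hF, fun S k h1 h2 => ?_⟩
    rw [← hdec]
    constructor
    · rintro ⟨G, hG, h3⟩
      rw [bits_injective hG] at h3
      exact h3.2.2
    · intro h3
      exact ⟨(S, k), rfl, h1, h2, h3⟩

end Pool.Agent.Q229.PS
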