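import Pool.Agent.Q229.PS.Base

set_option autoImplicit false

/-!
# The path-stabbing number: statements of the parts of the proof

Basic lemmas on `adjC` (splitting at an element `adjC_append`, monotonicity, reversal, `adjC_map`,
`adjC_add_le`, `adjC_append_le`) are in `Pool.Agent.Q229.PS.Base`.
-/

namespace Pool.Agent.Q229.PS

open Pool.Agent.NPC

/-! ## The walker problem -/

/-- The number of steps over gap `j` (`j ≥ 1`) in the block of `v`, if the walker zigzags through the
block, starting on the left (`b = true`) or on the right (`b = false`). -/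
def load (φ : F3) (v : ℕ) (b : Bool) (j : ℕ) : ℕ :=
  ((occ φ).map (fun o => (if b then 4 else 2) * (if j + 1 ≤ rT v o then 1 else 0) +
    (if b then 2 else 4) * (if j + 1 ≤ rF v o then 1 else 0))).sum

/-- JOB W1.  The zigzag walks of a block.  Note `rT v o ≥ 1`, `rF v o ≥ 1`, `(occ φ).length = 3 m`,
so `part1` has `12 m` and `part2` has `12 m + 2` elements, all `≥ 1`.

Proof.  `IsWalk`: `rowL true (0, r) = [0, r]`, `rowL false (0, r) = [r, 0]` for `r ≥ 1`.
Steps over gap 0: induction along `rs`: `cross 0 ((zig b rs).flatten)` is `rs.length`, because inside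
a row one step and between rows none (the positions `r, r' ≥ 1` are on the same side of gap `0`);
for an even number of rows `zig true` starts and ends at `0`, `zig false` starts and ends at a
position `≥ 1`; together with the ends `0` and `1` there is exactly one more step.
Steps over gap `j ≥ 1`: only right turns matter.  Induct over `occ φ`: a piece `[1, r, r, 1]` of
`part1` walked by `zig true` from `0` is `0 1 r 0 0 r 1 0`: four steps over gap `j` if `j + 1 ≤ r`,
else none; walked by `zig false` (coming from a position `≤ j` on the right: `1` or the position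
before) it is `1 0 0 r r 0 0 1`: two steps.  A piece `[1, 1, r, r]` of `part2`: `zig true`:
`0 1 1 0 0 r r 0`: two; `zig false`: `1 0 0 1 r 0 0 r` and then `1` (the next piece or the final
`[1, 1]` starts with `1`): four. -/
def W1Stm : Prop := ∀ (φ : F3) (v : ℕ) (b : Bool),
  IsWalk (blk φ v) ([0] :: (zig b (part1 φ v ++ part2 φ v) ++ [[1]])) ∧
  cross 0 ([0] :: (zig b (part1 φ v ++ part2 φ v) ++ [[1]])).flatten = 24 * φ.length + 3 ∧
  ∀ j, 1 ≤ j → cross j ([0] :: (zig b (part1 φ v ++ part2 φ v) ++ [[1]])).flatten = load φ v b j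

/-- JOB W2.  Walks of a block have at least the steps of one of the two zigzags, if they have the
smallest number of steps over gap 0.

Proof.  `us = [[0]] ++ A ++ B ++ [[1]]` with `A` a walk of the rows of `part1` (`12 m` rows, an even
number) and `B` a walk of the rows of `part2` (`12 m + 2` rows, even).  Every row `(0, r)`, `r ≥ 1`,
contributes one step over gap 0 and, if `j + 1 ≤ r`, one step over gap `j`.  So there are at least
`24 m + 2` steps over gap 0, and as the walk starts left and ends right of gap 0 their number is odd: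
at least `24 m + 3`.  Let there be exactly `24 m + 3`.  Let `a` be the number of steps over gap 0 of
`[0] ++ A.flatten` and `b` that of (last element of `[0] ++ A.flatten`) `:: B.flatten ++ [1]`; then
`a + b = 24 m + 3`, `a ≥ 12 m`, `b ≥ 12 m + 2`.
Case `a = 12 m`: no step between rows of `A` is over gap 0, so `A = zig true (part1 φ v)` (the walk is
left at the start, so the first row is `[0, r]`, the second one `[r', 0]` and so on), which has four
steps over gap `j` for every piece `[1, r, r, 1]` with `j + 1 ≤ r` (see W1); `B` has at least two steps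
over gap `j` for every piece `[1, 1, r, r]` with `j + 1 ≤ r`, inside the two rows `(0, r)`.  Take
`b = true`.
Case `a ≥ 12 m + 1`: then `b = 12 m + 2`, no step between the rows of `B` or to the final `1` is over
gap 0, so, going backwards from the final `1` which is right of gap 0, `B = zig false (part2 φ v)`
(an even number of rows), which has four steps over gap `j` for each piece `[1, 1, r, r]` with
`j + 1 ≤ r` (including the step into the next piece, which starts with `1`).  The rows of `A` give
two steps for each piece `[1, r, r, 1]` with `j + 1 ≤ r`.  Take `b = false`.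
(Use `adjC_add_le`, `adjC_append` of Base.) -/
def W2Stm : Prop := ∀ (φ : F3) (v : ℕ) (us : List (List ℕ)), IsWalk (blk φ v) us →
  24 * φ.length + 3 ≤ cross 0 us.flatten ∧
  (cross 0 us.flatten ≤ 24 * φ.length + 3 →
    ∃ b : Bool, ∀ j, 1 ≤ j → load φ v b j ≤ cross j us.flatten)

/-- the weight of a literal: 2 if it is true, 4 if it is false -/
def wt (τ : ℕ → Bool) (l : Lit ℕ) : ℕ := if τ l.2 = l.1 then 2 else 4

/-- JOB W3.  The sum of the loads of all variables.

Proof.  Exchange the sums: sum over the occurrences `o = (i, l)` of the sum over `v < 3 m` of the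
summand of `load`.  If `i ≥ j` (clause number `i + 1 > j`), both `rT, rF ≥ j + 1` and the summand is
`6` for each `v`; there are `3 (m - j)` such occurrences, each `6 * 3 m`: total `54 m (m - j)`.
If `i + 1 < j` both are at most `i + 2 ≤ j`, the summand is `0`.  If `i + 1 = j`: `rT = j + 1` iff
`l.2 = v` and `l.1 = false`, `rF = j + 1` iff `l.2 = v` and `l.1 = true`, so the summand is `0` for
`v ≠ l.2` and `wt τ l` for `v = l.2 < 3 m`. -/
def W3Stm : Prop := ∀ (φ : F3) (τ : ℕ → Bool), Small φ → ∀ j, 1 ≤ j →
  ∀ c : Lit ℕ × Lit ℕ × Lit ℕ, φ[j - 1]? = some c →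
  ((List.range (3 * φ.length)).map (fun v => load φ v (τ v) j)).sum =
    54 * φ.length * (φ.length - j) + (wt τ c.1 + wt τ c.2.1 + wt τ c.2.2)

/-- JOB W4 (uses W1, W2, W3).  3SAT reduces to the walker problem.

Proof.  (→) Let `τ` satisfy `φ`; concatenate for `v < 3 m` the walks of W1 with `b = τ v`, and `[[0]]`.
Between the blocks, and before the final `0`, there is a step from `1` to `0`, which is over gap `0`
only.  So there are `3 m (24 m + 3 + 1)` steps over gap 0, and over gap `j`, `1 ≤ j ≤ m`, the number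
of W3, where at least one of the three weights is 2.
(←) Split `us` into walks of the blocks (each of them starts with `0` and ends with `1`) and `[[0]]`.
The steps from `1` to `0` between blocks are over gap 0, so by W2 and `cap φ 0 = 3 m (24 m + 4)`
every block has exactly `24 m + 3` steps over gap 0.  Let `τ v` be the bit of W2.  The number of steps
over gap `j` is at least the sum of the loads; by W3 `wt τ c.1 + wt τ c.2.1 + wt τ c.2.2 ≤ 10` for
every clause `c`, so one of the literals is true. -/
def W4Stm : Prop := W1Stm → W2Stm → W3Stm → ∀ φ : F3, Small φ →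
  (SAT3 φ ↔ ∃ us, IsWalk (rows φ) us ∧ ∀ j ≤ φ.length, cross j us.flatten ≤ cap φ j)

/-! ## Lower bound: a path with small stabbing number gives a walk -/

/-- JOB N1.  Saturated gaps.  `hs` is a set of classes (values of `v`); in every class all the points
with `u = x0, …, x0 + n` are in `P`.

Proof.  Fix `h ∈ hs`.  An adjacent pair with exactly one of the two points in the class `v = h` steps
over gap `h` or over gap `h - 1` of `v` (`h ≥ 1`), so there are at most `2 K` such pairs.  Call a gap
`g`, `x0 ≤ g < x0 + n`, bad for `h` if no adjacent pair with both points in the class `v = h` steps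
over gap `g` of `u`.  Let `g_1 < … < g_r` be the bad gaps.  For `i = 1, …, r` let `U_i` be the set of
points with `v = h` and `g_{i-1} < u ≤ g_i` (for `i = 1` only `u ≤ g_1`).  `P` contains a point of
`U_i` (the one with `u = g_i`) and a point outside `U_i` (`u = g_r + 1`, `v = h`), so some adjacent pair
of `P` has exactly one point in `U_i`.  The other point of the pair is not in the class `v = h`, since
otherwise the pair would step over the bad gap `g_{i-1}` or `g_i`.  So this pair has exactly one point
in the class and this point is in `U_i`; for different `i` the pairs are different.  Hence `r ≤ 2 K`.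
Altogether there are at most `K * (2 K) < n` pairs (h, g) with `g` bad for `h`, so some gap `g` is bad
for no `h ∈ hs`.  For this `g` every class `h ∈ hs` has an adjacent pair inside the class which steps
over `g`; these pairs are different and are not counted in the `adjC` of the statement, and all
together at most `K` pairs step over `g`. -/
def N1Stm : Prop := ∀ (P : List Pt) (u v : Pt → ℕ) (K x0 n : ℕ) (hs : Finset ℕ),
  (∀ g, adjC (fun a b => cr g (u a) (u b)) P ≤ K) →
  (∀ g, adjC (fun a b => cr g (v a) (v b)) P ≤ K) →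
  (∀ h ∈ hs, 1 ≤ h) → hs.card ≤ K → K * (2 * K) < n →
  (∀ h ∈ hs, ∀ i ≤ n, ∃ a ∈ P, u a = x0 + i ∧ v a = h) →
  ∃ g, x0 ≤ g ∧ g < x0 + n ∧
    adjC (fun a b => cr g (u a) (u b) ∧ ¬ (v a = v b ∧ v a ∈ hs)) P + hs.card ≤ K

/-- the assumption on a path in the lower bound -/
def Low (p : Par) (rows : List Row) (P : List Pt) : Prop :=
  p.Ok ∧ p.Fits rows ∧ P.Perm (p.pts rows) ∧ (∀ g, adjC (fun a b => cr g a.1 b.1) P ≤ p.K) ∧
    (∀ g, adjC (fun a b => cr g a.2 b.2) P ≤ p.K)

/-- JOB N2a (uses N1).  Over every gap there is a nearly saturated vertical line.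

Proof.  N1 with `u = Prod.fst`, `v = Prod.snd`, `x0 = j L + 1`, `n = L - 2`, `hs` the heights
`Y + 1 + i`, `i < p.s j = D - cap j`, and `(i + 1) YY`, `i < T` (all different, because
`YY > Y + D`): `hs.card = T + D - cap j ≤ K`.  The points are in `zoneS j` and `rowsV`.  A pair with a
point at height at most `R L` is not inside one of the classes, since `Y ≥ H > R L`. -/
def N2aStm : Prop := N1Stm → ∀ (p : Par) (rows : List Row) (P : List Pt), Low p rows P →
  ∀ j ≤ p.m + 1, ∃ g, j * p.L + 1 ≤ g ∧ g + 1 < (j + 1) * p.L ∧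
    adjC (fun a b => cr g a.1 b.1 ∧ (a.2 ≤ p.R * p.L ∨ b.2 ≤ p.R * p.L)) P ≤ p.cap j

/-- JOB N2b (uses N1).  The same for horizontal lines.

Proof.  N1 with `u = Prod.snd`, `v = Prod.fst`, `x0 = k L + 1`, `n = L - 2`, `hs` the abscissas
`X + 1 + i`, `i < D`, and `(i + 1) XX`, `i < T - 1` (all different, because `XX > X + D`):
`hs.card = D + T - 1 = K - 1`.  The points are in `zoneT k` (`k = R - k'` with `k' < R`) and `colsH`.
A pair with a point of abscissa at most `W` is not inside one of the classes, since `X ≥ W`. -/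
def N2bStm : Prop := N1Stm → ∀ (p : Par) (rows : List Row) (P : List Pt), Low p rows P →
  ∀ k, 1 ≤ k → k ≤ p.R → ∃ g, k * p.L + 1 ≤ g ∧ g + 1 < (k + 1) * p.L ∧
    adjC (fun a b => cr g a.2 b.2 ∧ (a.1 ≤ p.W ∨ b.1 ≤ p.W)) P ≤ 1

/-- the points of the walker in the first `k` rows -/
def InA (p : Par) (k : ℕ) (a : Pt) : Prop := a.1 ≤ (p.m + 1) * p.L ∧ a.2 ≤ k * p.L

/-- JOB N3 (uses N1, N2a, N2b).  The path enters or leaves the first `k` rows only once.

Proof.  Let `g₀` be the gap of N2a for `j = m + 1`; as `cap (m + 1) = 0` no adjacent pair with a point at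
height at most `R L` steps over it.  Let `g` be the gap of N2b for `k`.  Let `(a, b)` or `(b, a)` be an
adjacent pair with `InA a`, not `InA b`.  Then `a.1 ≤ (m + 1) L ≤ g₀` and `a.2 ≤ k L ≤ R L`, so
`b.1 ≤ g₀ < W`.  Every point of `p.pts rows` is a point `(x L, i L)`, `x ≤ m + 1`, `1 ≤ i ≤ R`, of the
walker, or has `Y + 1 ≤` second coordinate (`zoneS`, the single point `(W, Y + D + 1)`, `rowsV`), or has
`X + 1 ≤` first coordinate (`zoneT`, the single point, `colsH`).  The last is impossible for `b`
(`X ≥ W`), in the second case `b.2 > g`, in the first case `b.1 ≤ (m + 1) L` so `b.2 > k L`, that is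
`b.2 ≥ (k + 1) L > g`.  So the pair steps over gap `g` and is counted in N2b. -/
def N3Stm : Prop := N1Stm → N2aStm → N2bStm → ∀ (p : Par) (rows : List Row) (P : List Pt),
  Low p rows P → ∀ k, 1 ≤ k → k ≤ p.R →
    adjC (fun a b => (InA p k a ∧ ¬ InA p k b) ∨ (InA p k b ∧ ¬ InA p k a)) P ≤ 1

/-- JOB N4.  If all the sets of the first `k` rows are entered or left at most once, the path begins or
ends with the points of the walker, row after row.

Proof.  Every row has a point, so `InA p k` is satisfied by some point of `P`, and not by all (`rest`).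
General fact: if `adjC (U changes) P ≤ 1` then `P = A ++ B` with `U` true on `A` and false on `B` or
false on `A` and true on `B`.  Apply it to `k = 1` and reverse `P` if necessary (`adjC_reverse`): the
first point of `P` satisfies `InA p 1`, hence `InA p k` for all `k ≥ 1`.  So for each `k` the list `P` is
`A_k ++ B_k` with `InA p k` true on `A_k` and false on `B_k`.  Comparing `k` and `k + 1`:
`A_{k+1} = A_k ++ C` where `C` consists of the points of `P` with `InA p (k + 1)` and not `InA p k`;
the list `P` is a permutation of `p.pts rows`, which has no repetitions in that range and in which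
these points are the points of row number `k` (counted from 0), that is
`(rowL true ρ).map (fun x => (x * L, (k + 1) * L))`.  A permutation of a list with at most two elements
is the list or its reverse, so `C = (rowL b ρ).map …` for some `b`.  So `A_R = p.mainP us`. -/
def N4Stm : Prop := ∀ (p : Par) (rows : List Row) (P : List Pt), p.Ok → p.Fits rows →
  P.Perm (p.pts rows) → (∀ k, 1 ≤ k → k ≤ p.R →
    adjC (fun a b => (InA p k a ∧ ¬ InA p k b) ∨ (InA p k b ∧ ¬ InA p k a)) P ≤ 1) →
  ∃ us, IsWalk rows us ∧ ∃ Q, P = p.mainP us ++ Q ∨ P.reverse = p.mainP us ++ Q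

/-- JOB N5 (uses N1–N4).  The lower bound.

Proof.  Take `us` of N4 (with N3).  For `j ≤ m` let `g` be the gap of N2a.  For positions `x, x'` of the
walker: `cr g (x L) (x' L) ↔ cr j x x'`, because `j L < g < (j + 1) L`.  The points of `p.mainP us` are at
heights at most `R L`.  So `cross j us.flatten` is at most the number in N2a (`adjC_map`, `adjC_reverse`,
`adjC_add_le`; note that `p.mainP us` mapped by the first coordinate is `us.flatten` mapped by
`(· * L)`). -/
def N5Stm : Prop := N1Stm → N2aStm → N2bStm → N3Stm → N4Stm →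
  ∀ (p : Par) (rows : List Row) (P : List Pt), Low p rows P →
    ∃ us, IsWalk rows us ∧ ∀ j ≤ p.m, cross j us.flatten ≤ p.cap j

/-! ## Upper bound: the path of a walk -/

/-- JOB Y0.  Only the corners matter.

Proof.  Let `f = lin α β γ`.  A run (`hrun x0 n y`, `vrun x y0 n` or the reverse, `n ≥ 1`) is a list of
collinear points in order; along it `f` is `c + i d` (`i = 0, …, n - 1`), hence monotone.  So
`sc f run ≤ 1`, and `sc f run = 0` unless `f` is negative at one end and positive at the other end; that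
is `sc f run ≤ sc f [first, last]`.  Splitting the lists at the ends of the runs (`adjC_append`) gives
`sc f (M ++ zr r n ++ N) ≤ sc f (M ++ zg a b n ++ N)` when `r i` is a run from `a i` to `b i`, all lists
being traversed in the same order.  (Runs have at least one point: `L ≥ 4`; when the run has one point
its two ends agree, which does no harm.) -/
def Y0Stm : Prop := ∀ p : Par, p.Ok → ∀ (M : List Pt) (α β γ : ℝ),
  sc (lin α β γ) (M ++ p.rest) ≤ sc (lin α β γ) (M ++ p.cRest)

/-- JOB Y1.  Sign changes along zigzags of corners.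

Proof of (1).  `zg a b n` is `a0 b0 b1 a1 a2 b2 b3 a3 …`.  If all `f (b i) > 0`: the piece `x a0 b0` has
at most one sign change (its ends have opposite signs and it has one more point), `b0 b1` none,
`b1 a1 a2 b2` at most two (its ends have the same sign: at most 3 steps, and an odd number of sign
changes without zeros is impossible; with a zero in the middle there are at most 2 anyway), `b2 b3` none, and
so on, at the end `b_{n-1} y` none: `1 + 2 (n - 1) / 2 = n`.  If all `f (a i) < 0`: `x a0` none,
`a0 b0 b1 a1` at most two, `a1 a2` none, …, `a_{n-1} b_{n-1} y` at most one: `n`.  (Induction in steps of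
two rows.)
(2) is similar: if all `f (a i) > 0`: `x a0` none, `a0 b0 b1 a1` at most two, …, `a_{n-1} y` none: `n`.
If all `f (b i) < 0`: `x a0 b0` at most 1, `b0 b1` none, `b1 a1 a2 b2` at most 2, …, `b_{n-1} a_{n-1} y`
at most 1: `2 + 2 (n - 2) / 2 = n`.
(3), (4): steps inside the rows are at most the rows with a sign change; the steps between the rows are
`b_i b_{i+1}` and `a_i a_{i+1}`; an affine sequence `c + i d` changes strictly from negative to positive
or conversely at most once, so there are at most `2` sign changes between the rows. -/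
def Y1Stm : Prop := ∀ (f : Pt → ℝ) (a b : ℕ → Pt) (n : ℕ),
  (∀ x y : Pt, n % 2 = 1 → f x < 0 → 0 < f y →
    ((∀ i < n, f (a i) < 0) ∨ (∀ i < n, 0 < f (b i))) → sc f (x :: (zg a b n ++ [y])) ≤ n) ∧
  (∀ x y : Pt, n % 2 = 0 → 0 < f x → 0 < f y →
    ((∀ i < n, 0 < f (a i)) ∨ (∀ i < n, f (b i) < 0)) → sc f (x :: (zg a b n ++ [y])) ≤ n) ∧
  ((∃ c d : ℝ, ∀ i : ℕ, f (a i) = c + i * d) → (∃ c d : ℝ, ∀ i : ℕ, f (b i) = c + i * d) →
    sc f (zg a b n) ≤ n + 2) ∧
  ((∃ c d : ℝ, ∀ i : ℕ, f (a i) = c + i * d) → (∃ c d : ℝ, ∀ i : ℕ, f (b i) = c + i * d) →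
    (∀ i < n, ∀ i' < n, f (a i) * f (b i) < 0 → f (a i') * f (b i') < 0 → i = i') →
    sc f (zg a b n) ≤ 3)

/-- JOB Y2 (uses Y1).  Lines which cross at most one full row and at most one full column.

Proof.  `sc` of a concatenation is at most the sum plus one for each junction (`adjC_append_le`), `sc` of
a list is at most its length minus one (`adjC_le`); `M` has at most `2 R` points, the corners `cS j`,
`j < m + 2`, at most `2 D` each, the corners `cT` `2 D` each (`length_zg`); `cV` and `cH` have at most
three sign changes by Y1 (4) (the corners are affine sequences).  The sum is at most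
`2 R + 2 D (m + 2) + 2 D R + 20 ≤ T ≤ K`. -/
def Y2Stm : Prop := Y1Stm → ∀ p : Par, p.Ok → ∀ (M : List Pt) (α β γ : ℝ), M.length ≤ 2 * p.R →
  (∀ i < p.T, ∀ i' < p.T, lin α β γ (p.W, (i + 1) * p.YY) * lin α β γ (0, (i + 1) * p.YY) < 0 →
    lin α β γ (p.W, (i' + 1) * p.YY) * lin α β γ (0, (i' + 1) * p.YY) < 0 → i = i') →
  (∀ i < p.T - 1, ∀ i' < p.T - 1,
    lin α β γ ((i + 1) * p.XX, 0) * lin α β γ ((i + 1) * p.XX, p.H) < 0 →
    lin α β γ ((i' + 1) * p.XX, 0) * lin α β γ ((i' + 1) * p.XX, p.H) < 0 → i = i') →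
  sc (lin α β γ) (M ++ p.cRest) ≤ p.K

/-- The line `f = 0` is almost vertical, it is close to `x = x0` at heights up to `Y + D + 1` -/
def LowV (p : Par) (f : Pt → ℝ) (x0 : ℝ) : Prop :=
  (∀ a : Pt, a.2 ≤ p.Y + p.D + 1 →
    (x0 + 1 / 4 ≤ (a.1 : ℝ) → 0 < f a) ∧ ((a.1 : ℝ) ≤ x0 - 1 / 4 → f a < 0)) ∧
  (∀ a : Pt, p.X + 1 ≤ a.1 → a.2 ≤ p.H → 0 < f a) ∧
  (f (0, 0) < 0 → 0 < f (p.W, 0) →
    ((∀ i < p.T, 0 < f (p.W, (i + 1) * p.YY)) ∨ (∀ i < p.T, f (0, (i + 1) * p.YY) < 0))) ∧
  sc f p.cV ≤ p.T + 2

/-- The line `f = 0` is almost horizontal, it is close to `y = y0` for abscissas up to `X + D + 1` -/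
def LowH (p : Par) (f : Pt → ℝ) (y0 : ℝ) : Prop :=
  (∀ a : Pt, a.1 ≤ p.X + p.D + 1 →
    (y0 + 1 / 4 ≤ (a.2 : ℝ) → 0 < f a) ∧ ((a.2 : ℝ) ≤ y0 - 1 / 4 → f a < 0)) ∧
  (∀ a : Pt, p.Y + 1 ≤ a.2 → a.1 ≤ p.W → 0 < f a) ∧
  (f (0, 0) < 0 → 0 < f (0, p.H) →
    ((∀ i < p.T - 1, f ((i + 1) * p.XX, 0) < 0) ∨ (∀ i < p.T - 1, 0 < f ((i + 1) * p.XX, p.H)))) ∧
  sc f p.cH ≤ p.T + 1

/-- JOB Y3 (uses Y1).  Lines crossing two full rows are almost vertical.

Proof.  Let `i < i'` be the two rows, `f` changes its sign on the row at height `h = (i + 1) YY`, from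
`x = 0` to `x = W`, and at height `h' = (i' + 1) YY`; so `α ≠ 0`, and passing to `-f` we may assume
`α > 0` (if we pass to `-f`, use the second alternative).  Then `f (0, h) < 0 < f (W, h)` and the same
for `h'`: `β h < γ < α W + β h`, `β h' < γ < α W + β h'`.  Hence `|β| (h' - h) < α W`, and
`h' - h ≥ YY`, so `|β| YY < α W`.  Put `x0 = γ / α`.
(1) Let `a.2 ≤ Y + D + 1`.  `f a = α (a.1 - x0) + β a.2` and `|β a.2| ≤ |β| (Y + D + 2)`,
`|β| (Y + D + 2) * 4 W < |β| YY`, `< α W`, so `|β a.2| < α / 4` (`W > 0`).
(2) Let `X + 1 ≤ a.1`, `a.2 ≤ H`.  `γ < α W + β h` so `f a > α (a.1 - W) + β (a.2 - h)`, and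
`|a.2 - h| ≤ T YY` (as `0 ≤ a.2 ≤ H ≤ YY`, `0 < h ≤ T YY`), so `|β (a.2 - h)| ≤ T α W` and
`a.1 - W ≥ X + 1 - W ≥ T W + 1`.
(3) `f (0, 0) = -γ`, `f (W, 0) = α W - γ`.  If `β ≥ 0` then `f (W, (i + 1) YY) ≥ f (W, 0) > 0`, if
`β ≤ 0` then `f (0, (i + 1) YY) ≤ f (0, 0) < 0`.
(4) Y1 (3). -/
def Y3Stm : Prop := Y1Stm → ∀ p : Par, p.Ok → ∀ (α β γ : ℝ) (i i' : ℕ), i < i' → i' < p.T →
  lin α β γ (p.W, (i + 1) * p.YY) * lin α β γ (0, (i + 1) * p.YY) < 0 →
  lin α β γ (p.W, (i' + 1) * p.YY) * lin α β γ (0, (i' + 1) * p.YY) < 0 →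
  ∃ (f : Pt → ℝ) (x0 : ℝ), (f = lin α β γ ∨ f = lin (-α) (-β) (-γ)) ∧ LowV p f x0

/-- JOB Y4 (uses Y1).  Lines crossing two full columns are almost horizontal.

Proof.  Let `f` change its sign on the columns `x = (i + 1) XX` and `x = (i' + 1) XX`, `i < i'`, from
`y = 0` to `y = H`.  So `β ≠ 0`, and passing to `-f` we may assume `β > 0`.  As in Y3:
`|α| XX < β H`.  Put `y0 = γ / β`.
(1) Let `a.1 ≤ X + D + 1`.  `f a = β (a.2 - y0) + α a.1` and `|α a.1| ≤ |α| (X + D + 2) < β / 4`, because
`4 H (X + D + 2) < XX`.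
(2) Let `Y + 1 ≤ a.2`, `a.1 ≤ W`, `t = (i + 1) XX`.  From `f (t, H) > 0`: `γ < α t + β H`, so
`f a > α (a.1 - t) + β (a.2 - H)`, `|a.1 - t| ≤ T XX` (`0 ≤ a.1 ≤ W ≤ X ≤ XX`, `0 < t ≤ T XX`), so
`|α (a.1 - t)| ≤ T β H` and `a.2 - H ≥ Y + 1 - H ≥ T H + 1`.
(3) If `α ≤ 0` then `f ((i + 1) XX, 0) ≤ f (0, 0) < 0`; if `α ≥ 0` then
`f ((i + 1) XX, H) ≥ f (0, H) > 0`.
(4) Y1 (3) with `n = T - 1`. -/
def Y4Stm : Prop := Y1Stm → ∀ p : Par, p.Ok → ∀ (α β γ : ℝ) (i i' : ℕ), i < i' → i' < p.T - 1 →
  lin α β γ ((i + 1) * p.XX, 0) * lin α β γ ((i + 1) * p.XX, p.H) < 0 →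
  lin α β γ ((i' + 1) * p.XX, 0) * lin α β γ ((i' + 1) * p.XX, p.H) < 0 →
  ∃ (f : Pt → ℝ) (y0 : ℝ), (f = lin α β γ ∨ f = lin (-α) (-β) (-γ)) ∧ LowH p f y0

/-- the assumption on a walk in the upper bound -/
def Wk (p : Par) (us : List (List ℕ)) : Prop :=
  p.Ok ∧ us.length = p.R ∧ (∀ u ∈ us, u ≠ [] ∧ u.length ≤ 2 ∧ ∀ x ∈ u, x ≤ p.m + 1) ∧
    us.getLast? = some [0] ∧ ∀ j ≤ p.m, cross j us.flatten ≤ p.cap j

/-- JOB Y5 (uses Y1).  Almost vertical lines which meet zone `j`.

Proof.  `L ≥ 4`.  All points below are at heights `≤ Y + D + 1`.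
Points of the walker `(x L, (k + 1) L)`: `f < 0` if `x ≤ j` (`x L ≤ j L ≤ x0 - 3/4`) and `f > 0` if
`x ≥ j + 1`.  So `sc f (mainP us) = cross j us.flatten` (`adjC_map`), which is at most `cap j` if
`j ≤ m`, and `0 = cap (m + 1)` if `j = m + 1` (all positions are at most `m + 1`).
The last point of the walker is `(0, R L)`, there `f < 0`.
Corners `cS j'`: for `j' < j` all negative, for `j' > j` all positive; for `j' = j` the left ends
`a i = (j L + 1, …)` are negative if `j L + 1 ≤ x0 - 1/4`, otherwise (`x0 < j L + 5/4`) the right ends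
`b i = (j L + L - 1, …)` are positive (`L - 2 ≥ 3/2`... use `L ≥ 4`).  The point `(W, Y + D + 1)` is
positive.  So by Y1 (1) (`s j = D - cap j` is odd), with `x` the point before `cS j` (negative) and `y`
the point after it (positive), the steps from the last point of the walker to `(W, Y + D + 1)` have
at most `s j` sign changes.
`cV`: `f (0, 0) < 0 < f (W, 0)`, so by `LowV` and Y1 (2) (`T` is even), with `x = (W, Y + D + 1)` and
`y = (X + 1, R L + L - 1)` the first point of `cR2`, at most `T` sign changes.
All points of `cR2` have abscissa at least `X + 1` and height at most `H`: positive, no sign change.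
Total: `cap j + (D - cap j) + T = K`. -/
def Y5Stm : Prop := Y1Stm → ∀ (p : Par) (us : List (List ℕ)), Wk p us → ∀ (f : Pt → ℝ) (x0 : ℝ),
  LowV p f x0 → ∀ j ≤ p.m + 1, (j * p.L : ℝ) + 3 / 4 ≤ x0 → x0 ≤ (j * p.L : ℝ) + p.L - 3 / 4 →
  sc f (p.mainP us ++ p.cRest) ≤ p.K

/-- JOB Y6.  Almost vertical lines which meet no zone.

Proof.  For each `j ≤ m + 1`: if `x0 < j L + 3/4` then all corners `cS j` have abscissa
`≥ j L + 1 ≥ x0 + 1/4` and are positive; otherwise `x0 > j L + L - 3/4` and all corners are negative;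
the first alternative for `j` implies it for `j + 1`.  So the sequence of corners `cS 0, …,
cS (m + 1)` is first negative and then positive: at most one sign change.  `cR2` is positive (see
Y5): none.  `cV`: at most `T + 2`.  `M`: at most `2 R`.  Junctions (`adjC_append_le`): at most 5.
Total at most `2 R + T + 8 ≤ T + D`. -/
def Y6Stm : Prop := ∀ (p : Par), p.Ok → ∀ (M : List Pt) (f : Pt → ℝ) (x0 : ℝ), M.length ≤ 2 * p.R →
  LowV p f x0 → (∀ j ≤ p.m + 1, ¬ ((j * p.L : ℝ) + 3 / 4 ≤ x0 ∧ x0 ≤ (j * p.L : ℝ) + p.L - 3 / 4)) →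
  sc f (M ++ p.cRest) ≤ p.K

/-- JOB Y7 (uses Y1).  Almost horizontal lines which meet zone `k`.

Proof.  Points of the walker in row `i` (height `(i + 1) L`, abscissa at most `(m + 1) L ≤ W ≤ X`): `f < 0`
if `i + 1 ≤ k` and `f > 0` if `i + 1 ≥ k + 1`.  All points of `cR1` and `cV` have height at least `Y + 1`
and abscissa at most `W`: positive.  So along the walker, `cR1`, `cV` there is at most one sign change
(from negative to positive).
Corners `cT k'`: abscissas at most `X + D`; for `k' > k` positive, for `k' < k` negative, for `k' = k`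
the ends `a i = (…, k L + L - 1)` are positive if `y0 + 1/4 ≤ k L + L - 1`, otherwise the ends
`b i = (…, k L + 1)` are negative.  The point `(X + D + 1, 0)` is negative.  The sequence is
`cT R, cT (R - 1), …, cT 1, (X + D + 1, 0)`; the point before `cT k` is positive and the point after it
is negative, so Y1 (1) for `-f` gives at most `D` sign changes (`D` odd).
`cH` after the negative point `(X + D + 1, 0)`: `f (0, 0) < 0 < f (0, H)` so by `LowH` and Y1 (1)
(`T - 1` odd; take `y = (0, H)`, `f y > 0`, and drop it again) at most `T - 1` sign changes.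
Total `1 + D + T - 1 = K`. -/
def Y7Stm : Prop := Y1Stm → ∀ (p : Par) (us : List (List ℕ)), Wk p us → ∀ (f : Pt → ℝ) (y0 : ℝ),
  LowH p f y0 → ∀ k, 1 ≤ k → k ≤ p.R → (k * p.L : ℝ) + 3 / 4 ≤ y0 →
  y0 ≤ (k * p.L : ℝ) + p.L - 3 / 4 → sc f (p.mainP us ++ p.cRest) ≤ p.K

/-- JOB Y8.  Almost horizontal lines which meet no zone.

Proof.  `cR1` and `cV` are positive.  For `1 ≤ k ≤ R` the corners `cT k` are all positive
(`y0 < k L + 3/4`) or all negative (`y0 > k L + L - 3/4`), in the order `cT R, …, cT 1` first positive,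
then negative: at most one sign change.  `cH`: at most `T + 1`.  `M`: at most `2 R`.  Junctions: at most 5.
Total at most `2 R + T + 7 ≤ K`. -/
def Y8Stm : Prop := ∀ (p : Par), p.Ok → ∀ (M : List Pt) (f : Pt → ℝ) (y0 : ℝ), M.length ≤ 2 * p.R →
  LowH p f y0 → (∀ k, 1 ≤ k → k ≤ p.R →
    ¬ ((k * p.L : ℝ) + 3 / 4 ≤ y0 ∧ y0 ≤ (k * p.L : ℝ) + p.L - 3 / 4)) →
  sc f (M ++ p.cRest) ≤ p.K

/-- JOB Y9 (uses Y0–Y8).  The upper bound.

Proof.  Y0, then: if two full rows are crossed, Y3 and Y5 or Y6; if two full columns are crossed, Y4 and Y7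
or Y8; otherwise Y2.  `(mainP us).length ≤ 2 R`.  `sc (lin (-α) (-β) (-γ)) = sc (lin α β γ)` is `sc_neg`. -/
def Y9Stm : Prop := Y0Stm → Y1Stm → Y2Stm → Y3Stm → Y4Stm → Y5Stm → Y6Stm → Y7Stm → Y8Stm →
  ∀ (p : Par) (us : List (List ℕ)), Wk p us → ∀ α β γ : ℝ,
    sc (lin α β γ) (p.mainP us ++ p.rest) ≤ p.K

/-! ## The instance -/

/-- JOB F1.  The points are different.

Proof.  The points of the walker have heights at most `R L` and abscissas at most `(m + 1) L`, different
rows have different heights, `rowL true ρ` has no repetitions.  `zoneS j`: abscissas strictly between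
`j L` and `(j + 1) L`, heights `Y + 1 + i ≤ Y + D`; the single point `(W, Y + D + 1)`; `rowsV`: heights
`(i + 1) YY > Y + D + 1`; `zoneT k`: abscissas `X + 1 + i ≤ X + D`, heights strictly between `k L` and
`(k + 1) L`; the single point `(X + D + 1, 0)`; `colsH`: abscissas `(i + 1) XX > X + D + 1`, heights at
most `H`.  The first three groups have abscissas at most `W ≤ X`, the others more than `X`. -/
def F1Stm : Prop := ∀ (p : Par) (rows : List Row), p.Ok → p.Fits rows → (p.pts rows).Nodup

/-- JOB F2.  The parameters of a formula.  `(rows φ).length = 3 m (24 m + 4) + 1`. -/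
def F2Stm : Prop := ∀ φ : F3, (parOf φ).Ok ∧ (parOf φ).Fits (rows φ) ∧
  (∀ us, IsWalk (rows φ) us → (∀ j ≤ φ.length, cross j us.flatten ≤ cap φ j) → Wk (parOf φ) us)

/-- JOB F3.  The reduction is computable in polynomial time.  (Unary numbers: `UPoly` is closed under
`add, mul, const, length`, see the end of `Pool/Agent/Q111/QP4/PolyStm.lean` for an example; the lists
are `flatMap`s of ranges; `Poly` for the conversion to rationals by `TEnc ℚ`.) -/
def F3Stm : Prop := Poly inst

/-- JOB F4 (uses W4, N5, Y9, F1, F2).  Correctness of the reduction.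

Proof.  Let `p = parOf φ`.  (→) W4 gives `us`; the path `p.mainP us ++ p.rest` is a permutation of
`p.pts (rows φ)` (row by row), and Y9 bounds the numbers of stabbed edges (cast from `ℕ` to `ℚ` to `ℝ`).
(←) Let `P` be a path of the points with rational coordinates; it is a permutation of a list mapped by
the cast, hence the image of a permutation `P'` of `ptsOf φ`.  The lines `x = g + 1/2` and `y = g + 1/2`
give `Low`; N5 and W4. -/
def F4Stm : Prop := (∀ φ : F3, Small φ →
    (SAT3 φ ↔ ∃ us, IsWalk (rows φ) us ∧ ∀ j ≤ φ.length, cross j us.flatten ≤ cap φ j)) →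
  (∀ (p : Par) (rows : List Row) (P : List Pt), Low p rows P →
    ∃ us, IsWalk rows us ∧ ∀ j ≤ p.m, cross j us.flatten ≤ p.cap j) →
  (∀ (p : Par) (us : List (List ℕ)), Wk p us → ∀ α β γ : ℝ,
    sc (lin α β γ) (p.mainP us ++ p.rest) ≤ p.K) → F1Stm → F2Stm →
  ∀ φ : F3, Small φ → (SAT3 φ ↔ PathStab (inst φ))

/-! ## Membership in NP -/

/-- position of `p` with respect to the line through `a` and `b` -/
def detS (a b p : ℚ × ℚ) : ℚ := (b.1 - a.1) * (p.2 - a.2) - (b.2 - a.2) * (p.1 - a.1)

/-- position of `p` with respect to the perpendicular bisector of `a` and `b` -/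
def dotS (a b p : ℚ × ℚ) : ℚ :=
  (b.1 - a.1) * (2 * p.1 - a.1 - b.1) + (b.2 - a.2) * (2 * p.2 - a.2 - b.2)

/-- position of `p` with respect to the line through `a` and `b`, slightly turned about the midpoint
of `a` and `b` -/
def lexS (a b : ℚ × ℚ) (e : Bool) (p : ℚ × ℚ) : ℚ :=
  if detS a b p ≠ 0 then detS a b p else if e then dotS a b p else - dotS a b p

/-- JOB M1.  It suffices to look at finitely many lines.

Proof.  (→) Let `a ≠ b` and `e` be given.  For small `δ > 0` the affine function
`detS a b + δ ε dotS a b` (`ε = 1` or `-1`), which is not constant, has at all points `p` of `P` with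
`lexS a b e p ≠ 0` the same sign as `lexS a b e p` (where `detS a b p ≠ 0` this holds for
`δ < |detS| / (|dotS| + 1)`, take the minimum over the finitely many points of `P`).  Its zero line
stabs all the edges counted.
(←) Let a line `f = 0` be given, `f p = α p.1 + β p.2 - γ`, and assume that it stabs an edge (otherwise
the count is `0 ≤ k`, since there are two different points in `P` and the count on the right is
nonnegative).  Let `S⁺`, `S⁻` be the points of `P` with `f > 0`, `f < 0`; both nonempty.  Let
`h p = - β p.1 + α p.2` (a coordinate along the line).  Among all `a ∈ S⁺`, `b ∈ S⁻` choose a pair with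
`s(a, b) = (h a - h b) / (f a - f b)` maximal, and among these with `f a - f b` minimal.  For `p ∈ S⁺`,
`s(p, b) ≤ s(a, b)` says that `p` is on one closed side of the line through `a` and `b`, and for
`q ∈ S⁻`, `s(a, q) ≤ s(a, b)` says that `q` is on the other closed side: with
`D p = (h p - h b) (f a - f b) - (h a - h b) (f p - f b)`, which is `± (α^2 + β^2)` times the
determinant `detS a b p` (always the same sign), `D ≤ 0` on `S⁺` and `D ≥ 0` on `S⁻`.  If `D p = 0` and
`p ∈ S⁺`, then `s(p, b) = s(a, b)` is maximal too, so `f p ≥ f a` by minimality; similarly `f q ≤ f b`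
for `q ∈ S⁻` with `D q = 0`.  On the line through `a` and `b` the function `dotS a b` is a decreasing
(affine) function of `f`, negative for `f ≥ f a` … more precisely `p = a + t (a - b)` with
`t = (f p - f a) / (f a - f b) ≥ 0` gives `dotS a b p = -(1 + 2 t) |b - a|² < 0`, and `q = b + t (b - a)`,
`t ≥ 0`, gives `dotS a b q = (1 + 2 t) |b - a|² > 0`.  So for a suitable `e` (depending on the sign
relating `D` to `detS`: if `detS` is a positive multiple of `D` take `e = true`, otherwise `false`)
`lexS a b e` is negative on `S⁺` and positive on `S⁻` or the other way round; every edge stabbed by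
the line `f = 0` is counted for `a, b, e`. -/
def M1Stm : Prop := ∀ (P : List (ℚ × ℚ)) (k : ℤ), P.Nodup → 2 ≤ P.length →
  ((∀ α β γ : ℝ, (α ≠ 0 ∨ β ≠ 0) → (adjC (Stabs α β γ) P : ℤ) ≤ k) ↔
    ∀ a ∈ P, ∀ b ∈ P, a ≠ b → ∀ e : Bool,
      (adjC (fun p q => lexS a b e p * lexS a b e q < 0) P : ℤ) ≤ k)

/-- JOB M2 (uses M1).  PATH-STAB is in NP.  The certificate is the path `P` (a permutation of the input
list); the finitely many conditions of M1 are checked in polynomial time.  (Examples of such proofs:
`Pool/Agent/Q224/QP4/MemStm.lean`, `Pool/Agent/Q229/LC/`, `Pool/Agent/Q230/SN/Mem.lean`; rational numbers are encoded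
by numerator and denominator, the signs of `detS` and `dotS` are signs of integers after
multiplication by the denominators.) -/
def M2Stm : Prop := M1Stm → InNPP PathStab

end Pool.Agent.Q229.PS
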